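import Pool.Agent.helper90.FL.Spec

set_option autoImplicit false

namespace Pool.Agent.helper90.FL

open Finset Polynomial
open scoped Classical

theorem DBL (h : CLS_stmt) (h2 : TCH_stmt) : DBL_stmt := by
  intro V E _ s t D C e T' he hC hnl hlp hind hsub h3
  obtain ⟨k1, k2, k3, k4, k5⟩ := h V E s t D
  have hfin : (tc s t D C).Finite := Set.toFinite _
  have hfin' : T'.Finite := hfin.subset hsub
  have hUT : hfin'.toFinset ⊆ hfin.toFinset := by
    intro T hT
    rw [Set.Finite.mem_toFinset] at hT ⊢
    exact hsub hT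
  have hcT : hfin.toFinset.card = (tc s t D C).ncard := (Set.ncard_eq_toFinset_card _ hfin).symm
  have hcU : hfin'.toFinset.card = T'.ncard := (Set.ncard_eq_toFinset_card _ hfin').symm
  -- every class has cut at least two
  have hmem : ∀ T c, c ∈ cut s t C T ↔ c ∈ C ∧ ¬ (s c ∈ T ↔ t c ∈ T) := by
    intro T c
    unfold cut
    rw [Finset.mem_filter]
  have hclosed : ∀ T ∈ tc s t D C, Cl s t D T := by
    rintro T ⟨c, _, hc | hc⟩
    · rw [hc]; exact k2 _
    · rw [hc]; exact k2 _
  have htwo : ∀ T ∈ tc s t D C, 2 ≤ (cut s t C T).card := by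
    intro T hT
    have hcl := hclosed T hT
    obtain ⟨c, hcC, hc⟩ := hT
    have hne : cls s t D (s c) ≠ cls s t D (t c) := fun hh => hnl c hcC ((k5 c).1 hh)
    have hcc : c ∈ cut s t C T := by
      rw [hmem]
      refine ⟨hcC, ?_⟩
      rcases hc with hc | hc
      · intro hiff
        have h1 : s c ∈ T := by rw [hc]; exact k1 _
        have h4 : t c ∈ T := hiff.1 h1
        rw [hc] at h4
        exact hne (k3 _ _ h4).symm
      · intro hiff
        have h1 : t c ∈ T := by rw [hc]; exact k1 _
        have h4 : s c ∈ T := hiff.2 h1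
        rw [hc] at h4
        exact hne (k3 _ _ h4)
    by_contra hlt
    have hone : (cut s t C T).card ≤ 1 := by omega
    have honly : ∀ c' ∈ cut s t C T, c' = c := fun c' hc' => Finset.card_le_one.1 hone c' hc' c hcc
    have hcl2 : Cl s t (D ∪ C.erase c) T := by
      intro c' hc'
      rw [Finset.mem_union] at hc'
      rcases hc' with hc' | hc'
      · exact hcl c' hc'
      · rw [Finset.mem_erase] at hc'
        by_contra hns
        exact hc'.1 (honly c' ((hmem T c').2 ⟨hc'.2, hns⟩))
    exact ((hmem T c).1 hcc).2 (hlp c hcC T hcl2)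
  -- double counting
  have hsum : ∑ T ∈ hfin.toFinset, (cut s t C T).card ≤ 2 * C.card := by
    have e1 : ∀ T ∈ hfin.toFinset, (cut s t C T).card = ∑ c ∈ C, if ¬ (s c ∈ T ↔ t c ∈ T) then 1 else 0 := by
      intro T _
      unfold cut
      rw [Finset.card_filter]
    rw [Finset.sum_congr rfl e1, Finset.sum_comm]
    have e2 : ∀ c ∈ C, (∑ T ∈ hfin.toFinset, if ¬ (s c ∈ T ↔ t c ∈ T) then 1 else 0) ≤ 2 := by
      intro c _
      rw [← Finset.card_filter]
      have hss : hfin.toFinset.filter (fun T => ¬ (s c ∈ T ↔ t c ∈ T)) ⊆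
          ({cls s t D (s c), cls s t D (t c)} : Finset (Set V)) := by
        intro T hT
        rw [Finset.mem_filter, Set.Finite.mem_toFinset] at hT
        obtain ⟨⟨c', _, hc'⟩, hsep⟩ := hT
        have hTc : ∀ v, v ∈ T → T = cls s t D v := by
          intro v hv
          rcases hc' with hc' | hc'
          · rw [hc'] at hv ⊢
            exact (k3 _ _ hv).symm
          · rw [hc'] at hv ⊢
            exact (k3 _ _ hv).symm
        rw [Finset.mem_insert, Finset.mem_singleton]
        by_cases h1 : s c ∈ T
        · exact Or.inl (hTc _ h1)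
        · by_cases h4 : t c ∈ T
          · exact Or.inr (hTc _ h4)
          · exact absurd ⟨fun h => absurd h h1, fun h => absurd h h4⟩ hsep
      exact (Finset.card_le_card hss).trans Finset.card_le_two
    calc ∑ c ∈ C, (∑ T ∈ hfin.toFinset, if ¬ (s c ∈ T ↔ t c ∈ T) then 1 else 0)
        ≤ ∑ c ∈ C, 2 := Finset.sum_le_sum e2
      _ = 2 * C.card := by rw [Finset.sum_const, smul_eq_mul, mul_comm]
  have hlow : 3 * hfin.toFinset.card ≤ (∑ T ∈ hfin.toFinset, (cut s t C T).card) + hfin'.toFinset.card := by
    have e1 : hfin'.toFinset.card = ∑ T ∈ hfin.toFinset, if T ∈ hfin'.toFinset then 1 else 0 := by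
      rw [← Finset.card_filter, Finset.filter_mem_eq_inter, Finset.inter_eq_right.2 hUT]
    rw [e1, ← Finset.sum_add_distrib, mul_comm, ← smul_eq_mul, ← Finset.sum_const]
    refine Finset.sum_le_sum fun T hT => ?_
    rw [Set.Finite.mem_toFinset] at hT
    split_ifs with hTU
    · have := htwo T hT
      omega
    · rw [Set.Finite.mem_toFinset] at hTU
      have := h3 T hT hTU
      omega
  -- number of classes
  have hne : (C.erase e).Nonempty := by
    rw [← Finset.card_pos, Finset.card_erase_of_mem he]
    omega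
  have htch := h2 V E s t D (C.erase e) hne hind
  rw [Finset.card_erase_of_mem he] at htch
  have hmono : (tc s t D (C.erase e)).ncard ≤ (tc s t D C).ncard := by
    apply Set.ncard_le_ncard _ hfin
    rintro T ⟨c, hc, hT⟩
    exact ⟨c, Finset.mem_of_mem_erase hc, hT⟩
  rw [hcT] at hlow
  rw [hcU] at hlow
  omega

end Pool.Agent.helper90.FL
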