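import Pool.Agent.helper10.FL.SpecV

set_option autoImplicit false

open Complex Metric Set Filter Topology MeasureTheory
open STA

noncomputable section

namespace FL

theorem LR2 (hR : RRB_stmt) (hI : INJ_stmt) (hF : FLW_stmt) (hX : LXB_stmt) (hP : LPR_stmt)
    (h1 : R1L_stmt) (hE : ELP_stmt) (hV : STA.PVF_stmt) : LR2_stmt := by
  intro K R th N e₀ hK hR1 hth hN he₀
  obtain ⟨s₁, hs₁, hflw⟩ := hF (1 / 10 ^ 4) K R th N e₀ (by norm_num) hK hR1 hth hN he₀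
  refine ⟨s₁, hs₁, ?_⟩
  intro Y₀ U y r e s b c i n ζ hes hss hela hS2
  have hS := hS2.sq
  by_contra hcon
  rw [not_or] at hcon
  obtain ⟨hcon1, hcon2⟩ := hcon
  have hre : ∀ (m : ℕ → ℕ) (ν : ℂ), RTs Y₀ U y r i n ζ m ν → ν.im = 0 := by
    intro m ν hm
    by_contra hne
    exact hcon1 ⟨m, ν, hm, hne⟩
  by_cases hcase : ∀ᶠ j in (U : Filter ℕ), n j ≤ b j
  · apply hcon2
    refine ⟨hre, ?_⟩
    filter_upwards [hcase, hS.sl, hS2.oi 1 one_pos, hS2.i0] with j hj hsl hoi hi0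
    have hnj : n j = b j := by
      rcases Nat.lt_or_ge (n j) (b j) with hlt | hge
      · exfalso
        have hfa := hoi.fa (n j) hsl.rt.m1 hlt 0 (by simp)
        have hsm := hsl.rt.sm 0 (by simp)
        have : (1 : ℝ) / 10 ^ 5 < 1 / 2 := by norm_num
        linarith
      · exact le_antisymm hj hge
    refine ⟨hnj, ?_⟩
    by_contra hi
    have hpos : 0 < ‖T (PVs (y j) (r j) Y₀) (n j) 0‖ := norm_pos_iff.mpr hsl.n0
    rw [← hnj] at hi0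
    have h4 : (4 : ℝ) ≤ 4 ^ (i j) := by
      calc (4 : ℝ) = 4 ^ 1 := by norm_num
        _ ≤ 4 ^ (i j) := pow_le_pow_right₀ (by norm_num) (Nat.one_le_iff_ne_zero.mpr hi)
    nlinarith [mul_le_mul_of_nonneg_right h4 hpos.le]
  have hcase' : ∀ᶠ j in (U : Filter ℕ), ¬ n j ≤ b j := by
    rw [← Ultrafilter.frequently_iff_eventually]
    exact Filter.not_eventually.mp hcase
  -- the closest return
  have hmin : ∀ j, ∃ a : ℕ, 1 < n j → 0 < a ∧ a < n j ∧ ∀ m : ℕ, 0 < m → m < n j →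
      ‖T (PVs (y j) (r j) Y₀) a (ζ j)‖ ≤ ‖T (PVs (y j) (r j) Y₀) m (ζ j)‖ := by
    intro j
    by_cases hn : 1 < n j
    · obtain ⟨a, ha, hamin⟩ := Finset.exists_min_image (Finset.Ioo 0 (n j))
        (fun m => ‖T (PVs (y j) (r j) Y₀) m (ζ j)‖) ⟨1, by simp [hn]⟩
      rw [Finset.mem_Ioo] at ha
      exact ⟨a, fun _ => ⟨ha.1, ha.2, fun m hm1 hm2 => hamin m (Finset.mem_Ioo.mpr ⟨hm1, hm2⟩)⟩⟩
    · exact ⟨0, fun h => absurd h hn⟩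
  choose a ha using hmin
  -- facts at one stage
  have hst : ∀ᶠ j in (U : Filter ℕ), NPP (PVs (y j) (r j) Y₀) (1 / 10 ^ 4) e s 0 (b j) (c j) ∧
      RT (PVs (y j) (r j) Y₀) (rr (i j)) (n j) ∧ 0 < a j ∧ a j < n j ∧
      (∀ m : ℕ, 0 < m → m < n j →
        ‖T (PVs (y j) (r j) Y₀) (a j) (ζ j)‖ ≤ ‖T (PVs (y j) (r j) Y₀) m (ζ j)‖) ∧
      2 ^ (i j) * ‖T (PVs (y j) (r j) Y₀) (a j) (ζ j)‖ ≤ 3 * s ∧
      T (PVs (y j) (r j) Y₀) (n j) (ζ j) ≠ 0 := by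
    filter_upwards [hcase', hS.np, hS.sl, hS2.c2] with j hj hnp hsl hc2
    have hok : SOk (PVs (y j) (r j) Y₀) := (hV Y₀ (y j) (r j) (hS.r0 j)).2.2.1 hS.ok
    have hrr := hR.1 (i j)
    obtain ⟨n', hn', hrt', hcl⟩ := hc2.resolve_left hj
    have hn1 : 1 < n j := lt_of_le_of_lt hrt'.m1 hn'
    obtain ⟨ha0, han, hamin⟩ := ha j hn1
    have hζ : ζ j ∈ ball (0 : ℂ) (rr (i j)) := by
      rw [mem_ball, dist_zero_right]
      have := hS.ze j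
      have h2 := hrr.1
      have : (1 : ℝ) / 10 ^ 6 < 1 / 48 := by norm_num
      linarith [hS.ze j]
    have hin' := (hI _ (1 / 10 ^ 4) e s 0 (b j) (c j) hok hnp (rr (i j)) n' hrr.1.le hrr.2.1 hrt').2.2 (ζ j) hζ
    have hin := (hI _ (1 / 10 ^ 4) e s 0 (b j) (c j) hok hnp (rr (i j)) (n j) hrr.1.le hrr.2.1 hsl.rt).2.2 (ζ j) hζ
    have hs0 : 0 ≤ s := le_trans (norm_nonneg _) hnp.sb
    refine ⟨hnp, hsl.rt, ha0, han, hamin, ?_, ?_⟩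
    · have h2 : (0 : ℝ) ≤ 2 ^ (i j) := by positivity
      have h3 : ‖T (PVs (y j) (r j) Y₀) (a j) (ζ j)‖ ≤
          (1001 / 1000) * ‖T (PVs (y j) (r j) Y₀) n' 0‖ := le_trans (hamin n' hrt'.m1 hn') hin'.2
      have h4 := mul_le_mul_of_nonneg_left h3 h2
      have h5 : 2 ^ (i j) * ((1001 / 1000) * ‖T (PVs (y j) (r j) Y₀) n' 0‖) =
          (1001 / 1000) * (2 ^ (i j) * ‖T (PVs (y j) (r j) Y₀) n' 0‖) := by ring
      rw [h5] at h4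
      have h6 : (1001 / 1000 : ℝ) * (2 ^ (i j) * ‖T (PVs (y j) (r j) Y₀) n' 0‖) ≤
          (1001 / 1000) * (2 * s) := mul_le_mul_of_nonneg_left hcl (by norm_num)
      linarith
    · intro h0
      have h7 := hin.1
      rw [h0, norm_zero] at h7
      have h8 : 0 < ‖T (PVs (y j) (r j) Y₀) (n j) 0‖ := norm_pos_iff.mpr hsl.n0
      linarith
  have hrt0 : ∀ᶠ j in (U : Filter ℕ), RT (PVs (y j) (r j) Y₀) (rl (i j) 0) (n j) := by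
    filter_upwards [hst] with j hj
    rw [(hR.1 (i j)).2.2.2.2]
    exact hj.2.1
  by_cases hB : ∃ B : ℝ, ∀ᶠ j in (U : Filter ℕ), ‖T (PVs (y j) (r j) Y₀) (a j) (ζ j)‖ ≤
      B * ‖T (PVs (y j) (r j) Y₀) (n j) (ζ j)‖
  · obtain ⟨B, hB⟩ := hB
    obtain ⟨-, ν, hν, -⟩ := hP Y₀ U y r (1 / 10 ^ 4) e s 0 b c i n ζ hS n a ζ B 0 le_rfl one_pos hrt0 (by
      filter_upwards [hst, hB] with j hj hBj
      refine ⟨hj.2.2.1, hj.2.2.2.1.le, ?_, hBj⟩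
      have : (1 : ℝ) / 10 ^ 6 ≤ 1 / 20000 := by norm_num
      exact le_trans (hS.ze j) this)
    obtain ⟨k, hk⟩ := h1 Y₀ U y r (1 / 10 ^ 4) e s 0 b c i n ζ hS hre a ν hν
    obtain ⟨j, hj, hkj⟩ := (hst.and hk).exists
    have ha0 := hj.2.2.1
    have han := hj.2.2.2.1
    rcases Nat.eq_zero_or_pos k with hk0 | hk0
    · rw [hk0, zero_mul] at hkj; omega
    · have : n j ≤ k * n j := Nat.le_mul_of_pos_left _ hk0
      omega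
  · have hbig : ∀ᶠ j in (U : Filter ℕ), ‖T (PVs (y j) (r j) Y₀) (n j) (ζ j)‖ ≤
        s₁ * ‖T (PVs (y j) (r j) Y₀) (a j) (ζ j)‖ := by
      have h9 : ¬ ∀ᶠ j in (U : Filter ℕ), ‖T (PVs (y j) (r j) Y₀) (a j) (ζ j)‖ ≤
          (1 / s₁) * ‖T (PVs (y j) (r j) Y₀) (n j) (ζ j)‖ := fun h => hB ⟨_, h⟩
      have h10 : ∀ᶠ j in (U : Filter ℕ), ¬ ‖T (PVs (y j) (r j) Y₀) (a j) (ζ j)‖ ≤
          (1 / s₁) * ‖T (PVs (y j) (r j) Y₀) (n j) (ζ j)‖ := by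
        rw [← Ultrafilter.frequently_iff_eventually]
        exact Filter.not_eventually.mp h9
      filter_upwards [h10] with j hj
      have h11 := not_le.mp hj
      rw [one_div, inv_mul_eq_div, div_lt_iff₀ hs₁] at h11
      linarith [mul_comm s₁ ‖T (PVs (y j) (r j) Y₀) (a j) (ζ j)‖]
    have hex : ∀ j, ∃ m : ℕ, (NPP (PVs (y j) (r j) Y₀) (1 / 10 ^ 4) e s 0 (b j) (c j) ∧
      RT (PVs (y j) (r j) Y₀) (rr (i j)) (n j) ∧ 0 < a j ∧ a j < n j ∧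
      (∀ m : ℕ, 0 < m → m < n j →
        ‖T (PVs (y j) (r j) Y₀) (a j) (ζ j)‖ ≤ ‖T (PVs (y j) (r j) Y₀) m (ζ j)‖) ∧
      2 ^ (i j) * ‖T (PVs (y j) (r j) Y₀) (a j) (ζ j)‖ ≤ 3 * s ∧
      T (PVs (y j) (r j) Y₀) (n j) (ζ j) ≠ 0) → ‖T (PVs (y j) (r j) Y₀) (n j) (ζ j)‖ ≤
        s₁ * ‖T (PVs (y j) (r j) Y₀) (a j) (ζ j)‖ →
        1 ≤ m ∧ RT (PVs (y j) (r j) Y₀) (rl (i j) (1 / 2)) m ∧
        ‖T (PVs (y j) (r j) Y₀) m (ζ j)‖ ≤ (N + 3) * ‖T (PVs (y j) (r j) Y₀) (n j) (ζ j)‖ ∧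
        ¬ n j ∣ m := by
      intro j
      by_cases hc : (NPP (PVs (y j) (r j) Y₀) (1 / 10 ^ 4) e s 0 (b j) (c j) ∧
          RT (PVs (y j) (r j) Y₀) (rr (i j)) (n j) ∧ 0 < a j ∧ a j < n j ∧
          (∀ m : ℕ, 0 < m → m < n j →
            ‖T (PVs (y j) (r j) Y₀) (a j) (ζ j)‖ ≤ ‖T (PVs (y j) (r j) Y₀) m (ζ j)‖) ∧
          2 ^ (i j) * ‖T (PVs (y j) (r j) Y₀) (a j) (ζ j)‖ ≤ 3 * s ∧
          T (PVs (y j) (r j) Y₀) (n j) (ζ j) ≠ 0) ∧ ‖T (PVs (y j) (r j) Y₀) (n j) (ζ j)‖ ≤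
            s₁ * ‖T (PVs (y j) (r j) Y₀) (a j) (ζ j)‖
      · obtain ⟨⟨hnp, hrt, ha0, han, hamin, h3s, hne⟩, hsm⟩ := hc
        have hok : SOk (PVs (y j) (r j) Y₀) := (hV Y₀ (y j) (r j) (hS.r0 j)).2.2.1 hS.ok
        obtain ⟨m, hm⟩ := hflw (PVs (y j) (r j) Y₀) e s 0 (b j) (c j) (i j) (n j) (a j) (ζ j) hok
          hnp hes hss (hE Y₀ (y j) (r j) K R th N e₀ (hS.r0 j) hela) hrt ha0 han hamin (hS.ze j)
          h3s hne hsm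
        exact ⟨m, fun _ _ => hm⟩
      · exact ⟨0, fun h h' => absurd ⟨h, h'⟩ hc⟩
    choose m hm using hex
    obtain ⟨ν, hν, -⟩ := (hX Y₀ U y r (1 / 10 ^ 4) e s 0 b c i n ζ hS).1 m (N + 3) (1 / 2) (by norm_num)
      (by norm_num)
      (by filter_upwards [hst, hbig] with j hj hbj; exact (hm j hj hbj).2.1)
      (by filter_upwards [hst, hbig] with j hj hbj; exact (hm j hj hbj).2.2.1)
    obtain ⟨k, hk⟩ := h1 Y₀ U y r (1 / 10 ^ 4) e s 0 b c i n ζ hS hre m ν hν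
    obtain ⟨j, ⟨hj, hbj⟩, hkj⟩ := ((hst.and hbig).and hk).exists
    exact (hm j hj hbj).2.2.2 ⟨k, by rw [hkj]; ring⟩

end FL
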